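import Pool.Agent.U735.SO.Main
import Pool.Agent.U735.FF.Forw

/-!
# The motivic t-structure in positive characteristic
-/

set_option autoImplicit false
set_option linter.checkUnivs false

open CategoryTheory Limits MonoidalCategory Pretriangulated Triangulated

namespace Pool.Agent.U735.PC

open Pool.Agent.Y116.MT Pool.Agent.U435.UD Pool.Agent.U735.FF Pool.Agent.U735.SO

universe v u w x y

section

variable {Λ : Type} {E : Λ → Type w} [∀ l, Field (E l)]

/-- The known properties of the category of constructible motives `M` over a finite field: the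
endomorphisms of the unit are rational numbers; `Chow` are the Chow motives and `φ` is the Frobenius
endomorphism, with the properties in `FiniteFieldMotives` (among them the Weil conjectures). -/
structure FiniteFieldData (M : MotCat.{v, u} Λ E) where
  [linear : Linear ℚ M.C]
  scalars (e : 𝟙_ M.C ⟶ 𝟙_ M.C) : ∃ q : ℚ, e = q • 𝟙 (𝟙_ M.C)
  /-- the class of Chow motives -/
  Chow : ObjectProperty M.C
  /-- the Frobenius endomorphism -/
  φ : 𝟭 M.C ⟶ 𝟭 M.C
  frob : FiniteFieldMotives Chow φ M.R

/-- Over a finite field. -/
theorem FiniteFieldData.iff [Nonempty Λ] {M : MotCat.{v, u} Λ E} (D : FiniteFieldData M) :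
    HasMotivic M ↔ Parshin D.Chow ∧ RationalEqualsNumerical D.Chow := by
  obtain ⟨scalars, Chow, φ, frob⟩ := D
  exact main scalars frob

variable {F : Type x} [Field F]

/-- The system of categories of motives, without the specialisations. -/
def fieldSystem (𝓜 : FieldMotives.{v, u, w, x} F Λ E) : FieldSystem.{v, u, w, x} F Λ E where
  mot := 𝓜.mot
  bc f := 𝓜.bc f
  push f := 𝓜.push f
  defined := 𝓜.defined

/-- One extension of `F` is enough for all extensions. -/
theorem iff_base [Nonempty Λ] (𝓜 : FieldMotives.{v, u, w, x} F Λ E)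
    (h : ∀ (K : Type x) [Field K] [Algebra F K], PurelyTr F K →
      ∃ l : Λ, Nonempty (FunctionFieldData.{v, u, w, y} (𝓜.mot F) (𝓜.mot K) l))
    (K : Type x) [Field K] [Algebra F K] : HasMotivic (𝓜.mot K) ↔ HasMotivic (𝓜.mot F) :=
  ⟨fun h0 => 𝓜.desc (Algebra.ofId F K) h0,
    fun h0 => ((fieldSystem 𝓜).iff_base h).1 h0 K⟩

end

end Pool.Agent.U735.PC
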